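import Pool.Agent.Lib.MP_6b187a_gt.Top

/-!
# Almost all pairs of geodesics from a point diverge

`M` is a Riemannian metric on `ℝⁿ`, `n ≥ 3`, in normal coordinates at the origin, all of whose
geodesics through the origin are minimizing, and in which the balls of each radius have bounded
volume. The exponential map of a point `p` turns every complete simply connected manifold without
conjugate points whose Ricci curvature is bounded below into such an `M`.
-/

set_option autoImplicit false

namespace Pool.Agent.Results.MP_6b187a_gt.AlmostAllPairs

open Filter MeasureTheory Pool.Agent.Lib.MP_6b187a_gt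

/-- For every `C` the measures of the sets of the pairs of directions whose geodesics are at
distance at most `C` at some time in `[j, j + 1]` have a finite sum over `j`; so for almost every
pair of directions the distance of the geodesics tends to infinity. -/
theorem result : ∀ (n : ℕ) (M : RMetric n), 3 ≤ n → M.Normal → M.Minimizing → M.BoundedBalls →
    (∀ C : ℝ, ∑' j : ℕ, ((dirs n).prod (dirs n)) {w | M.Near C j w.1 w.2} < ⊤) ∧
    ∀ᵐ w ∂((dirs n).prod (dirs n)),
      Tendsto (fun t : ℝ => M.dist (ray w.1 t) (ray w.2 t)) atTop atTop :=
  fun _ _ hn hN hm hV => ⟨fun C => (RMetric.tsum_bad hn hN hm hV C).lt_top,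
    RMetric.ae_diverges hn hN hm hV⟩

end Pool.Agent.Results.MP_6b187a_gt.AlmostAllPairs
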