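import Pool.Agent.Lib.MP_6b187a_gt.Single

/-!
# Every geodesic from a point and almost every other one

`M` is a Riemannian metric on `ℝⁿ`, `n ≥ 3`, in normal coordinates at the origin, all of whose
geodesics through the origin are minimizing, and in which the balls of each radius have bounded
volume. The exponential map of a point `p` turns every complete simply connected manifold without
conjugate points whose Ricci curvature is bounded below into such an `M`.
-/

set_option autoImplicit false

namespace Pool.Agent.Results.MP_6b187a_gt.EveryDirection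

open Filter MeasureTheory Pool.Agent.Lib.MP_6b187a_gt
open scoped Topology

/-- `Near C j u v`: the geodesics of `u` and `v` are at distance at most `C` at some time in
`[j, j + 1]`. The largest measure of the set of the `v` with `Near C j u v`, `u` ranging over all
directions, tends to zero in `j`, even with a finite sum of `(n + 1) / (n - 1)`-th powers.
For EVERY `u` and almost every `v`, the number of `j < T` with `Near C j u v` is
`o(T ^ (2 / (n + 1) + ε))` for all `C` and all `ε > 0`. -/
theorem result : ∀ (n : ℕ) (M : RMetric n), 3 ≤ n → M.Normal → M.Minimizing → M.BoundedBalls →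
    (∀ C : ℝ, ∑' j : ℕ, (⨆ u, dirs n {v | M.Near C j u v}) ^ (((n : ℝ) + 1) / (n - 1)) < ⊤) ∧
    ∀ u : Dir n, ∀ᵐ v ∂(dirs n), ∀ C ε : ℝ, 0 < ε →
      Tendsto (fun T : ℕ => ({j : ℕ | j < T ∧ M.Near C j u v}.ncard : ℝ) /
        (T : ℝ) ^ (2 / ((n : ℝ) + 1) + ε)) atTop (𝓝 0) :=
  fun _ _ hn hN hm hV => ⟨fun C => (RMetric.tsum_near hn hN hm hV C).lt_top,
    fun u => RMetric.near_times hn hN hm hV u⟩

end Pool.Agent.Results.MP_6b187a_gt.EveryDirection
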