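import Pool.Agent.Lib.MP_6b187a_gt.Div.TrTop

/-!
# Geodesics of a manifold without conjugate points need not diverge

The negative answer to the question, for every dimension `n ≥ 3`. For `n = 3` the metric is
`E (dt² + (Y/X)² dy² + dx² / Y)` on `ℝ³` with `Y = e^y`, `X = 1 + Y`,
`E = 1 + e^y + exp (-t/50 - 4 y)` (`gM` in `Met.lean`); for `n > 3` it is the product with the flat
`ℝⁿ⁻³`.
-/

set_option autoImplicit false

namespace Pool.Agent.Results.MP_6b187a_gt.NonDivergence

open Pool.Agent.Lib.MP_6b187a_gt.Div

/-- **For every `n ≥ 3` there is a smooth complete Riemannian metric on `ℝⁿ` without conjugate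
points, with two geodesics `α`, `β` of unit speed, defined for all times, which start at the same
point with different velocities and whose distance is bounded for all times `s ≥ 0`.** -/
theorem result : ∀ n : ℕ, 3 ≤ n →
    ∃ M : Metric n, M.GeodesicallyComplete ∧ M.MetricallyComplete ∧ M.NoConjugatePoints ∧
      ∃ α β : ℝ → Fin n → ℝ, M.IsGeodesic α ∧ M.IsGeodesic β ∧ α 0 = β 0 ∧
        vel α 0 ≠ vel β 0 ∧ ∃ C : ℝ, ∀ s, 0 ≤ s → M.dist (α s) (β s) ≤ C :=
  fun _ hn => exists_nonDivergence hn

end Pool.Agent.Results.MP_6b187a_gt.NonDivergence
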